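import Pool.Agent.H61.CMC.TargetsE1

/-!
# (GML) the lower bound of the Gamma factors, uniform in the weight
-/

set_option autoImplicit false

open MeasureTheory Set Filter NumberField NumberField.InfinitePlace NumberField.Units
  NumberField.Units.dirichletUnitTheorem
open Pool.Agent.H65.CM4 Pool.Agent.H65.CMC Pool.Agent.H25.HK Pool.Agent.H61.CM4
  Pool.Agent.H61.CMC
open scoped Real

namespace Pool.Agent.H70.CMC1

/-- one place -/
theorem gml_place (C₀ : ℝ) (N : ℕ)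
    (h : ∀ (M : ℕ) (c τ : ℝ), 1 / 4 ≤ c → c ≤ 1 →
      ‖Complex.Gamma (1 / 2 + M + τ * Complex.I)‖ ≤
      C₀ * (1 + M + |τ|) ^ N * ‖Complex.Gamma (c + M + τ * Complex.I)‖) (m : ℤ) (s : ℂ)
    (hs : |s.re - 1 / 2| ≤ 1 / 8) :
    ‖Complex.Gamma (1 / 2 + ((|m| : ℤ) : ℂ) + s.im * Complex.I)‖ ≤
      C₀ * (1 + (m.natAbs : ℝ) + |s.im|) ^ N * ((64 / 9 * (2 * π)) * ‖gg m s‖) := by
  obtain ⟨hs1, hs2⟩ := abs_le.1 hs
  have hM : ((|m| : ℤ) : ℂ) = (m.natAbs : ℂ) := by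
    rw [Int.abs_eq_natAbs]
    simp
  have hΓ : s + ((|m| : ℤ) : ℂ) = (s.re : ℂ) + (m.natAbs : ℂ) + s.im * Complex.I := by
    rw [hM]
    conv_lhs => rw [← Complex.re_add_im s]
    ring
  have h1 := h m.natAbs s.re s.im (by linarith) (by linarith)
  rw [← hΓ] at h1
  rw [hM]
  have hπ : 1 ≤ 2 * π := by linarith [Real.pi_gt_three]
  have h2π : (0 : ℝ) < 2 * π := by linarith
  have hg : ‖gg m s‖ = ‖s‖ * ‖s - 1‖ * ‖Complex.Gamma (s + ((|m| : ℤ) : ℂ))‖ *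
      (2 * π) ^ (-s.re) := by
    unfold gg
    rw [norm_mul, norm_mul, norm_mul]
    have e : (2 * (π : ℂ)) = ((2 * π : ℝ) : ℂ) := by push_cast; ring
    rw [e, Complex.norm_cpow_eq_rpow_re_of_pos h2π, Complex.neg_re]
  have ha : 3 / 8 ≤ ‖s‖ := by
    have h3 := Complex.abs_re_le_norm s
    have h4 := le_abs_self s.re
    linarith
  have hb : 3 / 8 ≤ ‖s - 1‖ := by
    have h3 := Complex.abs_re_le_norm (s - 1)
    have h4 := neg_abs_le (s - 1).re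
    rw [Complex.sub_re, Complex.one_re] at h3 h4
    linarith
  have hc : (2 * π)⁻¹ ≤ (2 * π) ^ (-s.re) := by
    rw [← Real.rpow_neg_one]
    exact Real.rpow_le_rpow_of_exponent_le hπ (by linarith)
  have hlow : ‖Complex.Gamma (s + ((|m| : ℤ) : ℂ))‖ ≤ (64 / 9 * (2 * π)) * ‖gg m s‖ := by
    rw [hg]
    have hd : 3 / 8 * (3 / 8) ≤ ‖s‖ * ‖s - 1‖ :=
      mul_le_mul ha hb (by norm_num) (norm_nonneg _)
    have he : 3 / 8 * (3 / 8) * (2 * π)⁻¹ ≤ ‖s‖ * ‖s - 1‖ * (2 * π) ^ (-s.re) :=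
      mul_le_mul hd hc (by positivity) (by positivity)
    have hf : (64 / 9 * (2 * π)) * (3 / 8 * (3 / 8) * (2 * π)⁻¹) = 1 := by
      field_simp
      norm_num
    calc ‖Complex.Gamma (s + ((|m| : ℤ) : ℂ))‖
        = (64 / 9 * (2 * π)) * (3 / 8 * (3 / 8) * (2 * π)⁻¹) *
          ‖Complex.Gamma (s + ((|m| : ℤ) : ℂ))‖ := by rw [hf, one_mul]
      _ ≤ (64 / 9 * (2 * π)) * (‖s‖ * ‖s - 1‖ * (2 * π) ^ (-s.re)) *
          ‖Complex.Gamma (s + ((|m| : ℤ) : ℂ))‖ :=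
          mul_le_mul_of_nonneg_right (mul_le_mul_of_nonneg_left he (by positivity))
            (norm_nonneg _)
      _ = _ := by ring
  have hC : 0 ≤ C₀ * (1 + (m.natAbs : ℝ) + |s.im|) ^ N := by
    by_contra hcon
    push Not at hcon
    have h5 : ‖Complex.Gamma (1 / 2 + (m.natAbs : ℂ) + s.im * Complex.I)‖ ≤ 0 :=
      h1.trans (mul_nonpos_of_nonpos_of_nonneg hcon.le (norm_nonneg _))
    have h6 : Complex.Gamma (1 / 2 + (m.natAbs : ℂ) + s.im * Complex.I) ≠ 0 := by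
      refine Complex.Gamma_ne_zero_of_re_pos ?_
      have e : (1 / 2 + (m.natAbs : ℂ) + s.im * Complex.I).re = 1 / 2 + (m.natAbs : ℝ) := by
        simp [Nat.cast_natAbs]
      rw [e]
      positivity
    exact h6 (norm_le_zero_iff.1 h5)
  exact h1.trans (mul_le_mul_of_nonneg_left hlow hC)

theorem pf_GML (hGXX : T_GXX) : T_GML := by
  intro k _ _
  obtain ⟨C₀, N, hC₀, h⟩ := hGXX 1
  have hπ : (0 : ℝ) < 2 * π := by positivity
  refine ⟨(C₀ * (64 / 9 * (2 * π))) ^ Fintype.card (Pl k), N * Fintype.card (Pl k),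
    by positivity, fun m s hs => ?_⟩
  have hpl : ∀ v : Pl k, ‖Complex.Gamma (1 / 2 + ((|m v| : ℤ) : ℂ) + s.im * Complex.I)‖ ≤
      (C₀ * (64 / 9 * (2 * π))) * (1 + |s.im| + ms m) ^ N * ‖gg (m v) s‖ := by
    intro v
    have h1 := gml_place C₀ N (fun M c τ h1 h2 => (h M c τ h1 h2).2) (m v) s hs
    have h2 : ((m v).natAbs : ℝ) ≤ ms m := by
      have h3 : ((m v).natAbs : ℝ) = |(m v : ℝ)| := by
        rw [Nat.cast_natAbs, Int.cast_abs]
      rw [h3]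
      unfold ms
      exact Finset.single_le_sum (f := fun v : Pl k => |(m v : ℝ)|) (fun v _ => abs_nonneg _)
        (Finset.mem_univ v)
    have h4 : (1 + ((m v).natAbs : ℝ) + |s.im|) ^ N ≤ (1 + |s.im| + ms m) ^ N :=
      pow_le_pow_left₀ (by positivity) (by linarith) N
    calc ‖Complex.Gamma (1 / 2 + ((|m v| : ℤ) : ℂ) + s.im * Complex.I)‖
        ≤ C₀ * (1 + ((m v).natAbs : ℝ) + |s.im|) ^ N * ((64 / 9 * (2 * π)) * ‖gg (m v) s‖) := h1
      _ ≤ C₀ * (1 + |s.im| + ms m) ^ N * ((64 / 9 * (2 * π)) * ‖gg (m v) s‖) :=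
          mul_le_mul_of_nonneg_right (mul_le_mul_of_nonneg_left h4 hC₀.le) (by positivity)
      _ = _ := by ring
  unfold cG GM
  rw [norm_prod]
  calc ∏ v : Pl k, ‖Complex.Gamma (1 / 2 + ((|m v| : ℤ) : ℂ) + s.im * Complex.I)‖
      ≤ ∏ v : Pl k, (C₀ * (64 / 9 * (2 * π))) * (1 + |s.im| + ms m) ^ N * ‖gg (m v) s‖ :=
        Finset.prod_le_prod (fun v _ => norm_nonneg _) fun v _ => hpl v
    _ = _ := by
        rw [Finset.prod_mul_distrib, Finset.prod_const, mul_pow, ← pow_mul, Finset.card_univ]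

end Pool.Agent.H70.CMC1
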